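import Mathlib

set_option autoImplicit false

namespace Pool.Agent.Results.MP_e13f3c_al.ZeroOrInfinity

open Filter Topology
open scoped ENNReal Pointwise

universe u

section defs
variable {G : Type u} [AddCommGroup G]

/-- `T_n(φ,F) = F + φ(F) + ⋯ + φⁿ⁻¹(F)`. -/
def T (φ : AddMonoid.End G) (F : AddSubgroup G) (n : ℕ) : AddSubgroup G :=
  ⨆ i : Fin n, F.map (φ ^ i.1 : AddMonoid.End G)

/-- `H(φ,F) = lim log |T_n(φ,F)| / n` (the limit exists, so it equals the upper limit). -/
noncomputable def H (φ : AddMonoid.End G) (F : AddSubgroup G) : ℝ≥0∞ :=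
  limsup (fun n : ℕ => ENNReal.ofReal (Real.log (Nat.card (T φ F n)) / n)) atTop

/-- The algebraic entropy: the supremum of `H(φ,F)` over finite subgroups `F`. -/
noncomputable def ent (φ : AddMonoid.End G) : ℝ≥0∞ :=
  ⨆ (F : AddSubgroup G) (_ : Finite F), H φ F

lemma fin_sup {A B : AddSubgroup G} (hA : Finite A) (hB : Finite B) : Finite ↥(A ⊔ B) := by
  have : ((A ⊔ B : AddSubgroup G) : Set G).Finite := by
    rw [AddSubgroup.add_normal]
    exact Set.Finite.add hA hB
  exact this

lemma mem_T (φ : AddMonoid.End G) {F : AddSubgroup G} {n i : ℕ} (h : i < n) {x : G} (hx : x ∈ F) :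
    (φ ^ i) x ∈ T φ F n :=
  AddSubgroup.mem_iSup_of_mem (⟨i, h⟩ : Fin n) ⟨x, hx, rfl⟩

lemma fin_T (φ : AddMonoid.End G) {F : AddSubgroup G} (hF : Finite F) (n : ℕ) :
    Finite (T φ F n) := by
  induction n with
  | zero =>
    rw [T, iSup_of_empty]
    infer_instance
  | succ n ih =>
    have h1 : Finite (F.map (φ ^ n : AddMonoid.End G)) := Set.Finite.image _ hF
    refine Set.Finite.subset (fin_sup ih h1) (show T φ F (n + 1) ≤ _ from iSup_le ?_)
    rintro i _ ⟨x, hx, rfl⟩
    rcases Nat.lt_succ_iff_lt_or_eq.mp i.2 with h | h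
    · exact AddSubgroup.mem_sup_left (mem_T φ h hx)
    · exact AddSubgroup.mem_sup_right ⟨x, hx, by rw [h]⟩

/-- monic integer polynomials in `φ` -/
noncomputable def ψ (φ : AddMonoid.End G) (c : Σ j : ℕ, Fin j → ℤ) : AddMonoid.End G :=
  φ ^ c.1 - ∑ i, c.2 i • φ ^ i.1

lemma ψ_apply (φ : AddMonoid.End G) (c : Σ j : ℕ, Fin j → ℤ) (x : G) :
    ψ φ c x = (φ ^ c.1) x - ∑ i, c.2 i • (φ ^ i.1) x :=
  congrArg ((φ ^ c.1) x - ·) (AddMonoidHom.finsetSum_apply _ _ _)

lemma zero_case (φ : AddMonoid.End G) (c : Σ j : ℕ, Fin j → ℤ)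
    (h : Finite (AddMonoidHom.range (ψ φ c))) : ent φ = 0 := by
  refine le_antisymm (iSup₂_le fun F hF => le_of_eq ?_) bot_le
  have h1 := fin_sup h (fin_T φ hF c.1)
  have h2 : ∀ n, T φ F n ≤ AddMonoidHom.range (ψ φ c) ⊔ T φ F c.1 := by
    intro n
    refine iSup_le ?_
    rintro ⟨i, hi⟩ _ ⟨x, hx, rfl⟩
    change (φ ^ i) x ∈ _
    clear hi
    induction i using Nat.strong_induction_on with
    | _ i ih =>
      rcases lt_or_ge i c.1 with h | h
      · exact AddSubgroup.mem_sup_right (mem_T φ h hx)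
      · obtain ⟨k, rfl⟩ := Nat.exists_eq_add_of_le h
        have h3 := ψ_apply φ c ((φ ^ k) x)
        rw [eq_sub_iff_add_eq] at h3
        rw [pow_add]
        refine h3 ▸ add_mem (AddSubgroup.mem_sup_left ⟨_, rfl⟩)
          (sum_mem fun j _ => zsmul_mem ?_ _)
        have := ih (j + k) (by omega)
        rw [pow_add] at this
        exact this
  apply Tendsto.limsup_eq
  rw [← ENNReal.ofReal_zero]
  refine ENNReal.tendsto_ofReal (squeeze_zero (fun n => by positivity) (fun n => ?_)
    (tendsto_const_div_atTop_nhds_zero_nat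
      (Real.log (Nat.card ↥(AddMonoidHom.range (ψ φ c) ⊔ T φ F c.1)))))
  have := fin_T φ hF n
  gcongr
  · exact_mod_cast Nat.card_pos
  · exact AddSubgroup.card_le_of_le (h2 n)

lemma top_case (φ : AddMonoid.End G) (ht : ∀ x : G, IsOfFinAddOrder x)
    (h : ∀ N : Set G, N.Countable → ∃ x, ∀ c, ψ φ c x ∉ N) : ent φ = ⊤ := by
  have key : ∀ r : ℕ, ∃ F : AddSubgroup G, Finite F ∧ ∀ n, 2 ^ (r * n) ≤ Nat.card (T φ F n) := by
    intro r
    induction r with
    | zero => exact ⟨⊥, inferInstance, fun n => by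
        have := fin_T φ (F := ⊥) inferInstance n
        rw [zero_mul]
        exact Nat.card_pos⟩
    | succ r ih =>
      obtain ⟨F, hF, h1⟩ := ih
      obtain ⟨x, hx⟩ := h (⋃ n, T φ F n)
        (Set.countable_iUnion fun n => Set.Finite.countable (fin_T φ hF n))
      have hF' := fin_sup hF (finite_zmultiples.mpr (ht x))
      refine ⟨_, hF', fun n => ?_⟩
      have h0 := fin_T φ hF' n
      let U : ℕ → AddSubgroup G := fun j => T φ F n ⊔
        (Submodule.span ℤ (Set.range fun i : Fin j => (φ ^ i.1) x)).toAddSubgroup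
      have h2 : ∀ j ≤ n, U j ≤ T φ (F ⊔ AddSubgroup.zmultiples x) n := fun j hj =>
        sup_le (iSup_mono fun _ => AddSubgroup.map_mono le_sup_left)
          (fun z hz => by
            obtain ⟨c, rfl⟩ := (Submodule.mem_span_range_iff_exists_fun ℤ).mp hz
            exact sum_mem fun i _ => zsmul_mem (mem_T φ (by omega)
              (AddSubgroup.mem_sup_right (AddSubgroup.mem_zmultiples x))) _)
      have h3 : ∀ j ≤ n, 2 ^ (r * n + j) ≤ Nat.card (U j) := by
        intro j hj
        induction j with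
        | zero =>
          have : Finite (U 0) := Set.Finite.subset h0 (h2 0 hj)
          exact (h1 n).trans (AddSubgroup.card_le_of_le le_sup_left)
        | succ j ih =>
          have : Finite (U (j + 1)) := Set.Finite.subset h0 (h2 _ hj)
          have h4 : U j ≤ U (j + 1) := sup_le_sup_left (Submodule.span_mono (by
            rintro _ ⟨i, rfl⟩
            exact ⟨i.castSucc, rfl⟩)) _
          obtain ⟨m, hm⟩ := AddSubgroup.card_dvd_of_le h4
          have h5 : m ≠ 0 := by
            rintro rfl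
            exact Nat.card_pos.ne' hm
          have h6 : m ≠ 1 := by
            rintro rfl
            have h7 : (φ ^ j) x ∈ U (j + 1) :=
              AddSubgroup.mem_sup_right (Submodule.subset_span ⟨Fin.last j, rfl⟩)
            rw [← AddSubgroup.eq_of_le_of_card_ge h4 (by omega)] at h7
            obtain ⟨y, hy, z, hz, h8⟩ := AddSubgroup.mem_sup.mp h7
            obtain ⟨c, rfl⟩ := (Submodule.mem_span_range_iff_exists_fun ℤ).mp hz
            exact hx ⟨j, c⟩ (Set.mem_iUnion.mpr ⟨n, by rwa [ψ_apply, ← h8, add_sub_cancel_right]⟩)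
          rw [hm, ← add_assoc, pow_succ]
          exact Nat.mul_le_mul (ih (by omega)) (by omega)
      rw [add_mul, one_mul]
      exact (h3 n le_rfl).trans (AddSubgroup.card_le_of_le (h2 n le_rfl))
  refine ENNReal.eq_top_of_forall_nnreal_le fun s => ?_
  obtain ⟨r, hr⟩ := exists_nat_ge (s / Real.log 2)
  obtain ⟨F, hF, h1⟩ := key r
  refine le_iSup₂_of_le F hF (le_limsup_of_frequently_le (Eventually.frequently ?_))
  filter_upwards [eventually_gt_atTop 0] with n hn
  rw [← ENNReal.ofReal_coe_nnreal]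
  refine ENNReal.ofReal_le_ofReal ?_
  have h2 := Real.log_le_log (by positivity) 
    (show (2 : ℝ) ^ (r * n) ≤ Nat.card (T φ F n) by exact_mod_cast h1 n)
  rw [div_le_iff₀ (Real.log_pos one_lt_two)] at hr
  rw [Real.log_pow] at h2
  rw [le_div_iff₀ (by exact_mod_cast hn)]
  push_cast at h2
  have : (0 : ℝ) ≤ n := by positivity
  nlinarith

end defs

/-- Every continuous endomorphism of `K^ℕ` has algebraic entropy `0` or `∞`. -/
theorem result (K : Type u) [AddCommGroup K] [Finite K] [TopologicalSpace K] [DiscreteTopology K]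
    (φ : AddMonoid.End (ℕ → K)) (hφ : Continuous φ) : ent φ = 0 ∨ ent φ = ⊤ := by
  refine or_iff_not_imp_right.mpr fun h => ?_
  have h1 := mt (top_case φ fun x => isOfFinAddOrder_iff_nsmul_eq_zero.mpr
    ⟨Nat.card K, Nat.card_pos, funext fun _ => card_nsmul_eq_zero'⟩) h
  push Not at h1
  obtain ⟨N, hN, h1⟩ := h1
  have := hN.to_subtype
  have h2 : ∀ i : ℕ, Continuous (φ ^ i) := fun i => by
    rw [AddMonoid.End.coe_pow]
    exact hφ.iterate i
  have h3 : ∀ c, Continuous (ψ φ c) := fun c => by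
    rw [funext (ψ_apply φ c)]
    exact (h2 _).sub (continuous_finsetSum _ fun i _ => (h2 _).zsmul _)
  obtain ⟨⟨c, y⟩, x, hx⟩ := nonempty_interior_of_iUnion_of_closed
    (f := fun p : (Σ j : ℕ, Fin j → ℤ) × N => {x | ψ φ p.1 x = p.2})
    (fun p => isClosed_eq (h3 _) continuous_const)
    (Set.eq_univ_of_forall fun x => by
      obtain ⟨c, hc⟩ := h1 x
      exact Set.mem_iUnion.mpr ⟨(c, ⟨_, hc⟩), rfl⟩)
  have h4 : IsOpen (AddMonoidHom.ker (ψ φ c) : Set (ℕ → K)) := by
    refine AddSubgroup.isOpen_of_mem_nhds _ (g := 0) (mem_of_superset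
      ((continuous_add_const x).continuousAt.preimage_mem_nhds
        (by simpa using mem_interior_iff_mem_nhds.mp hx)) fun z hz => ?_)
    have h5 : ψ φ c (z + x) = y := hz
    have h6 := interior_subset hx
    rwa [map_add, show ψ φ c x = y from h6, add_eq_right] at h5
  have := AddSubgroup.quotient_finite_of_isOpen _ h4
  exact zero_case φ c (Finite.of_equiv _ (QuotientAddGroup.quotientKerEquivRange _).toEquiv)

end Pool.Agent.Results.MP_e13f3c_al.ZeroOrInfinity
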